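import Pool.Agent.Helper74.DI.St

set_option autoImplicit false

namespace Pool.Agent.Helper76.DI

open Pool.Agent.Helper74 Pool.Agent.Helper74.DI
open Pool.Agent.Helper74.WB (OP QW rl enc iv ap rd Red)

private lemma xc (hPNG : StPNG) (σ : List (ℕ × Bool)) : ∀ a : ℕ × Bool, Red (a :: σ) →
    Xc a (Vv (a :: σ)) := by
  induction σ with
  | nil =>
    intro a _
    exact hPNG.2.1 a
  | cons b σ ih =>
    intro a h
    exact hPNG.2.2.1 a b (Vv (b :: σ)) h.1 (ih b h.2)

private lemma step (hPNG : StPNG) (x : ℕ × Bool) (σ : List (ℕ × Bool)) :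
    Av (Vv σ) x = Vv (ap x σ) := by
  cases σ with
  | nil => rfl
  | cons y σ =>
    by_cases h : y = iv x
    · subst h
      rw [Pool.Agent.Helper74.WB.ap_cancel]
      have h1 := hPNG.1 (iv x) (Vv σ)
      rw [Pool.Agent.Helper74.WB.iv_iv] at h1
      exact h1
    · rw [Pool.Agent.Helper74.WB.ap_push x y σ h]
      rfl

private lemma fold (hPNG : StPNG) (l : List (ℕ × Bool)) : ∀ σ : List (ℕ × Bool),
    l.foldl Av (Vv σ) = Vv (rd l σ) := by
  induction l with
  | nil => intro σ; rfl
  | cons x l ih =>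
    intro σ
    rw [List.foldl_cons, step hPNG, ih, Pool.Agent.Helper74.WB.rd_cons]

theorem hPPF (hPNG : StPNG) : StPPF := by
  intro l
  have h1 : l.foldl Av (1, 0) = Vv (rd l []) := fold hPNG l []
  have h2 : Red (rd l ([] : List (ℕ × Bool))) :=
    Pool.Agent.Helper74.WB.red_rd l [] trivial
  rw [h1]
  constructor
  · intro h
    rw [h]
    rfl
  · intro h
    cases hr : rd l ([] : List (ℕ × Bool)) with
    | nil => rfl
    | cons a σ =>
      exfalso
      rw [hr] at h h2
      have h3 := xc hPNG σ a h2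
      rw [h] at h3
      exact hPNG.2.2.2 a h3

end Pool.Agent.Helper76.DI
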